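import Pool.Agent.H65.CRG.TL
import Pool.Agent.H90.CRZ.LV
import Pool.Agent.H68.CRZ.N1

/-!
# Row LV (general degree): Levinson's inequality
-/

set_option autoImplicit false

open Complex Filter Topology MeasureTheory Set
open Pool.Agent.H65.CRZ (rp zc ld St)
open Pool.Agent.H65.CRG
open Pool.Agent.H90.CRZ (ld_congr order_congr isOpen_re eventually_of_re eventually_of_open
  rp_congr zc_congr real_line UU isOpen_UU convex_UU side num_side num_fin right_side three_sides)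

namespace Pool.Agent.H68.CRG

/-- the logarithmic derivative of a power -/
theorem ld_pow' {f : ℂ → ℂ} {s : ℂ} (n : ℕ) (hd : DifferentiableAt ℂ f s) (hf : f s ≠ 0) :
    ld (fun s => f s ^ n) s = n * ld f s := by
  unfold ld
  have h1 : deriv (fun s => f s ^ n) s = n * f s ^ (n - 1) * deriv f s :=
    (hd.hasDerivAt.pow n).deriv
  rw [h1]
  cases n with
  | zero => simp
  | succ k =>
    rw [Nat.add_sub_cancel]
    show ((k + 1 : ℕ) : ℂ) * f s ^ k * deriv f s / f s ^ (k + 1) =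
      ((k + 1 : ℕ) : ℂ) * (deriv f s / f s)
    rw [pow_succ]
    field_simp

/-- the iterated derivatives of an entire function -/
lemma iter_diff {F : ℂ → ℂ} (hF : Differentiable ℂ F) (k : ℕ) :
    Differentiable ℂ (iteratedDeriv k F) := by
  have h1 : ContDiff ℂ (k + 1 : ℕ) F := hF.contDiff
  exact h1.differentiable_iteratedDeriv k (by exact_mod_cast Nat.lt_succ_self k)

/-- the odd derivatives are purely imaginary on the line -/
lemma line_re {F : ℂ → ℂ} (hF : Differentiable ℂ F)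
    (hreal : ∀ t : ℝ, (F (1 / 2 + t * I)).im = 0) (j : ℕ) (t : ℝ) :
    (iteratedDeriv (2 * j + 1) F (1 / 2 + t * I)).re = 0 := by
  have hlin : ∀ t : ℝ, HasDerivAt (fun t : ℝ => (1 / 2 : ℂ) + t * I) I t := fun t => by
    have h2 : HasDerivAt (fun t : ℝ => (t : ℂ)) 1 t := Complex.ofRealCLM.hasDerivAt
    simpa using (h2.mul_const I).const_add (1 / 2 : ℂ)
  have key : ∀ k : ℕ, ∀ t : ℝ, (I ^ k * iteratedDeriv k F (1 / 2 + t * I)).im = 0 := by
    intro k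
    induction k with
    | zero =>
      intro t
      simp only [pow_zero, one_mul, iteratedDeriv_zero]
      exact hreal t
    | succ k ih =>
      have hd : ∀ t : ℝ, HasDerivAt (fun t : ℝ => I ^ k * iteratedDeriv k F (1 / 2 + t * I))
          (I ^ k * (I * iteratedDeriv (k + 1) F (1 / 2 + t * I))) t := by
        intro t
        have h1 := ((iter_diff hF k) (1 / 2 + t * I)).hasDerivAt.scomp t (hlin t)
        rw [← iteratedDeriv_succ] at h1
        exact h1.const_mul (I ^ k)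
      intro t
      have h2 := (Pool.Agent.H68.CRZ.real_deriv hd ih t).1
      rw [pow_succ, mul_assoc]
      exact h2
  have h1 := key (2 * j + 1) t
  have h2 : (I : ℂ) ^ (2 * j + 1) = ((-1 : ℝ) ^ j : ℝ) * I := by
    rw [pow_succ, pow_mul, I_sq]
    push_cast
    ring
  rw [h2, mul_assoc, im_ofReal_mul, I_mul_im] at h1
  rcases mul_eq_zero.1 h1 with h3 | h3
  · exact absurd h3 (pow_ne_zero _ (by norm_num))
  · exact h3

/-- the derivatives in the right half plane -/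
lemma iter_factor {n : ℕ} {A : ℝ} (hA : 0 < A) {Λ Z : ℂ → ℂ} (e : ℂ) (hZ : Differentiable ℂ Z)
    (hG2 : Pool.Agent.H65.CRZ.T_G2)
    (hg : ∀ s : ℂ, (∀ n : ℕ, s ≠ -(n : ℂ)) → Λ s = (A : ℂ) ^ s * Gamma s ^ n * Z s)
    (hTK : ∀ s : ℂ, 0 < s.re → ∀ k : ℕ, DifferentiableAt ℂ (TK (el n A) Z k) s) (k : ℕ) :
    ∀ s : ℂ, 0 < s.re → iteratedDeriv k (fun s => e * Λ s) s =
      (e * ((A : ℂ) ^ s * Gamma s ^ n)) * TK (el n A) Z k s := by
  have hA0 : (A : ℂ) ≠ 0 := by exact_mod_cast hA.ne'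
  induction k with
  | zero =>
    intro s hs
    rw [iteratedDeriv_zero, TK_zero, hg s (fun m hm => by
      rw [hm] at hs
      simp only [neg_re, natCast_re] at hs
      have : (0 : ℝ) ≤ m := Nat.cast_nonneg m
      linarith)]
    ring
  | succ k ih =>
    intro s hs
    have hev : iteratedDeriv k (fun s => e * Λ s) =ᶠ[𝓝 s] fun s =>
        (e * ((A : ℂ) ^ s * Gamma s ^ n)) * TK (el n A) Z k s :=
      eventually_of_re (a := 0) ih hs
    rw [iteratedDeriv_succ, hev.deriv_eq, TK_succ]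
    have hGd : DifferentiableAt ℂ Gamma s := (hG2.1 s hs).1
    have hG0 : Gamma s ≠ 0 := (hG2.1 s hs).2.1
    have d1 : HasDerivAt (fun s : ℂ => (A : ℂ) ^ s) ((A : ℂ) ^ s * Complex.log A * 1) s :=
      (hasDerivAt_id s).const_cpow (Or.inl hA0)
    have d2 : HasDerivAt (fun s : ℂ => Gamma s ^ n) (n * Gamma s ^ (n - 1) * deriv Gamma s) s :=
      hGd.hasDerivAt.pow n
    have d3 := ((d1.mul d2).const_mul e).mul (hTK s hs k).hasDerivAt
    have hlog : Complex.log A = ((Real.log A : ℝ) : ℂ) := (ofReal_log hA.le).symm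
    have hld : (n : ℂ) * Gamma s ^ (n - 1) * deriv Gamma s = Gamma s ^ n * (n * ld Gamma s) := by
      unfold ld
      cases n with
      | zero => simp
      | succ m =>
        rw [Nat.add_sub_cancel, pow_succ]
        field_simp
    refine d3.deriv.trans ?_
    rw [hlog, hld]
    unfold el
    simp only [Pi.mul_apply]
    ring

theorem pf_LV (h1 : Pool.Agent.H65.CRZ.T_RP) (h2 : Pool.Agent.H65.CRZ.T_ZM) (h3 : T_NG)
    (h4 : Pool.Agent.H65.CRZ.T_BK) (h5 : Pool.Agent.H65.CRZ.T_G2) (h6 : T_TR) (h7 : T_V0) :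
    T_LV := by
  intro n N m C b hpm hC hb hCb
  obtain ⟨C0, hC0, hV0⟩ := h7 n N m C b hpm hC hb hCb
  obtain ⟨_, _, hTR, _⟩ := h6 n N m hpm
  set κ : ℝ := Real.log ((b - 1 / 4) / (b - 1 / 2)) with hκ
  have hκ0 : 0 < κ := by
    refine Real.log_pos ?_
    rw [lt_div_iff₀ (by linarith)]
    linarith
  set D : ℝ := (1 + C0) / κ + 1 with hD
  have hD0 : 0 < D := by positivity
  refine ⟨2 * D + 5, by positivity, fun T hT => ?_⟩
  obtain ⟨A1, hA1, hV1⟩ := hV0 (T + 2 * b + 1) (by linarith)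
  obtain ⟨CG, hCG, hGG⟩ := h5.2 (2 * b) (T + 2 * b + 1)
  set K : ℝ := 1 + n * CG + n * CG * (2 * b + T) + 2 * T with hK
  refine ⟨max A1 (Real.exp K), le_trans hA1 (le_max_left _ _), fun A hA Z hZ => ?_⟩
  have hAA1 : A1 ≤ A := le_trans (le_max_left _ _) hA
  have hApos : 0 < A := by linarith
  set l : ℝ := Real.log A with hl
  have hlK : K ≤ l := by
    have := Real.log_le_log (Real.exp_pos K) (le_trans (le_max_right _ _) hA)
    rwa [Real.log_exp] at this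
  have hprod : 0 ≤ n * CG * (2 * b + T) := by positivity
  have hprod' : 0 ≤ n * CG := by positivity
  have hl1 : 1 ≤ l := by linarith
  have hV := hV1 A hAA1 Z hZ
  obtain ⟨Λ, ε, hΛ, hε, hg, hfe⟩ := hZ.fe
  obtain ⟨e, he⟩ : ∃ e : ℂ, e ^ 2 = ε := IsAlgClosed.exists_pow_nat_eq ε (by norm_num)
  have he0 : (starRingEnd ℂ) e ≠ 0 := by
    rw [map_ne_zero]
    intro h0
    rw [h0] at he
    rw [← he] at hε
    simp at hε
  set L : ℝ := 2 * l with hL
  have hL0 : 0 < L := by positivity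
  set P : ℝ := 1 + pm N m (1 / 2) with hP
  set V : ℂ → ℂ := VQ n N m A Z with hVdef
  set F : ℂ → ℂ := fun s => (starRingEnd ℂ) e * Λ s with hF
  set G : ℂ → ℂ := fun s => F s + ∑ j ∈ Finset.range N,
    ((m j / L ^ (2 * j + 1) : ℝ) : ℂ) * iteratedDeriv (2 * j + 1) F s with hG
  -- facts on the open set
  have hmemV : ∀ s ∈ UU b T, DifferentiableAt ℂ V s ∧ ‖V s‖ ≤ A ^ C0 ∧
      (b ≤ s.re → ‖V s - 1‖ ≤ 1 / 4 ∧ ‖deriv V s‖ ≤ 1) := by
    intro s hs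
    obtain ⟨a1, a2, a3⟩ := hs
    obtain ⟨q2, _, q6, q7⟩ := hV s a1 a2 a3
    exact ⟨q2, q6, fun h => ⟨(q7 h).2.2.1, (q7 h).2.2.2⟩⟩
  have hUre : ∀ s ∈ UU b T, 0 < s.re := fun s hs => by linarith [hs.1]
  have haV : AnalyticOnNhd ℂ V (UU b T) := by
    intro s hs
    rw [analyticAt_iff_eventually_differentiableAt]
    filter_upwards [(isOpen_UU b T).mem_nhds hs] with w hw
    exact (hmemV w hw).1
  have haΓ : AnalyticOnNhd ℂ Gamma (UU b T) := by
    intro s hs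
    rw [analyticAt_iff_eventually_differentiableAt]
    filter_upwards [(isOpen_UU b T).mem_nhds hs] with w hw
    exact (h5.1 w (hUre w hw)).1
  have hA0 : (A : ℂ) ≠ 0 := by exact_mod_cast hApos.ne'
  have haA : AnalyticOnNhd ℂ (fun s : ℂ => (A : ℂ) ^ s) (UU b T) := by
    intro s _
    rw [analyticAt_iff_eventually_differentiableAt]
    refine Eventually.of_forall fun w => ?_
    exact DifferentiableAt.const_cpow differentiableAt_id (Or.inl hA0)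
  have hA0' : ∀ s : ℂ, (A : ℂ) ^ s ≠ 0 := by
    intro s
    rw [cpow_ne_zero_iff]
    exact Or.inl hA0
  have hΓ0 : ∀ s ∈ UU b T, Gamma s ≠ 0 := fun s hs => (h5.1 s (hUre s hs)).2.1
  have hVne : ∀ s ∈ UU b T, b ≤ s.re → V s ≠ 0 := by
    intro s hs hbs h0
    have := ((hmemV s hs).2.2 hbs).1
    rw [h0] at this
    norm_num at this
  -- membership
  have hmem : ∀ x t : ℝ, x ∈ Icc (1 / 2) b → t ∈ Icc 0 T → ((x : ℂ) + t * I) ∈ UU b T := by
    intro x t hx ht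
    have r1 : ((x : ℂ) + t * I).re = x := by simp
    have r2 : ((x : ℂ) + t * I).im = t := by simp
    refine ⟨?_, ?_, ?_⟩
    · rw [r1]
      linarith [hx.1]
    · rw [r1]
      linarith [hx.2]
    · rw [r2, abs_lt]
      constructor
      · linarith [ht.1]
      · linarith [ht.2]
  -- the zeros of `V`
  have hcpt : IsCompact (Icc (1 / 2) b ×ℂ Icc 0 T) := isCompact_Icc.reProdIm isCompact_Icc
  have hRU : (Icc (1 / 2) b ×ℂ Icc 0 T) ⊆ UU b T := by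
    intro s hs
    rw [mem_reProdIm] at hs
    have := hmem s.re s.im hs.1 hs.2
    rwa [re_add_im] at this
  have hs0 : ((b : ℂ) + (0 : ℝ) * I) ∈ UU b T := hmem b 0 ⟨by linarith, le_rfl⟩ ⟨le_rfl, hT.le⟩
  have hs0' : V ((b : ℂ) + (0 : ℝ) * I) ≠ 0 := hVne _ hs0 (by simp)
  have hVfin : {z | z ∈ (Icc (1 / 2) b ×ℂ Icc 0 T) ∧ V z = 0}.Finite :=
    Pool.Agent.H18.PZ.zeros_finite (convex_UU b T).isPreconnected haV hs0 hs0' hcpt hRU
  set NN : Set ℝ := Complex.im '' {z | z ∈ (Icc (1 / 2) b ×ℂ Icc 0 T) ∧ V z = 0} with hNN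
  have hNfin : NN.Finite := hVfin.image _
  set δ : ℝ := min (1 / 2) (T / 3) with hδ
  have hδ0 : 0 < δ := by positivity
  have hδ1 : δ ≤ 1 / 2 := min_le_left _ _
  have hδ2 : δ ≤ T / 3 := min_le_right _ _
  obtain ⟨t₁, ht₁, ht₁N⟩ := (Ioo_infinite hδ0).exists_notMem_finite hNfin
  obtain ⟨t₂, ht₂, ht₂N⟩ := (Ioo_infinite (show T - δ < T by linarith)).exists_notMem_finite hNfin
  have ht12 : t₁ < t₂ := by linarith [ht₁.2, ht₂.1]
  have ht1I : t₁ ∈ Icc 0 T := ⟨ht₁.1.le, by linarith [ht₁.2]⟩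
  have ht2I : t₂ ∈ Icc 0 T := ⟨by linarith [ht₂.1], ht₂.2.le⟩
  have hVh : ∀ h : ℝ, h ∈ Icc 0 T → h ∉ NN → ∀ x ∈ Icc (1 / 2) b, V (x + h * I) ≠ 0 := by
    intro h hh hhN x hx h0
    refine hhN ⟨x + h * I, ⟨?_, h0⟩, by simp⟩
    rw [mem_reProdIm]
    have r1 : ((x : ℂ) + h * I).re = x := by simp
    have r2 : ((x : ℂ) + h * I).im = h := by simp
    rw [r1, r2]
    exact ⟨hx, hh⟩
  have hVr : ∀ t : ℝ, t ∈ Icc t₁ t₂ → V (b + t * I) ≠ 0 := by
    intro t ht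
    refine hVne _ (hmem b t ⟨by linarith, le_rfl⟩ ⟨ht1I.1.trans ht.1, ht.2.trans ht2I.2⟩) ?_
    simp
  -- the factorisation
  have hPC : (P : ℂ) ≠ 0 := by exact_mod_cast hpm.ne'
  have hA1' : 1 < A := by linarith
  set H : ℂ → ℂ := fun s => ((starRingEnd ℂ) e * P) * ((A : ℂ) ^ s * (Gamma s ^ n * V s))
    with hH
  have hTK : ∀ s : ℂ, 0 < s.re → ∀ k : ℕ, DifferentiableAt ℂ (TK (el n A) Z k) s :=
    fun s hs k => (hTR A Z s hA1' hZ.diff hs).1 k
  have hGH : ∀ s ∈ UU b T, G s = H s := by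
    intro s hs
    have q := fun k => iter_factor (n := n) hApos ((starRingEnd ℂ) e) hZ.diff h5 hg hTK k s
      (hUre s hs)
    have q0 := q 0
    rw [iteratedDeriv_zero, TK_zero] at q0
    have e1 : G s = F s + ∑ j ∈ Finset.range N,
      ((m j / L ^ (2 * j + 1) : ℝ) : ℂ) * iteratedDeriv (2 * j + 1) F s := rfl
    have e2 : F s = (starRingEnd ℂ) e * ((A : ℂ) ^ s * Gamma s ^ n) * Z s := q0
    have e3 : ∑ j ∈ Finset.range N, ((m j / L ^ (2 * j + 1) : ℝ) : ℂ) *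
        iteratedDeriv (2 * j + 1) F s = ((starRingEnd ℂ) e * ((A : ℂ) ^ s * Gamma s ^ n)) *
        ∑ j ∈ Finset.range N, ((m j / L ^ (2 * j + 1) : ℝ) : ℂ) *
          TK (el n A) Z (2 * j + 1) s := by
      rw [Finset.mul_sum]
      refine Finset.sum_congr rfl fun j _ => ?_
      rw [hF, q (2 * j + 1)]
      ring
    have e4 : V s * P = Z s + ∑ j ∈ Finset.range N, ((m j / L ^ (2 * j + 1) : ℝ) : ℂ) *
          TK (el n A) Z (2 * j + 1) s := by
      have e5 : V s = (Z s + ∑ j ∈ Finset.range N, ((m j / L ^ (2 * j + 1) : ℝ) : ℂ) *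
          TK (el n A) Z (2 * j + 1) s) / (P : ℂ) := rfl
      rw [e5, div_mul_cancel₀ _ hPC]
    have e6 : H s = ((starRingEnd ℂ) e * ((A : ℂ) ^ s * Gamma s ^ n)) * (V s * P) := by
      rw [hH]
      ring
    rw [e1, e3, e2, e6, e4]
    ring
  have hcc : (starRingEnd ℂ) e * P ≠ 0 := mul_ne_zero he0 hPC
  have hHne : ∀ s ∈ UU b T, V s ≠ 0 → G s ≠ 0 := by
    intro s hs hv
    rw [hGH s hs]
    exact mul_ne_zero hcc (mul_ne_zero (hA0' s) (mul_ne_zero (pow_ne_zero _ (hΓ0 s hs)) hv))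
  have hFd : Differentiable ℂ F := hΛ.const_mul _
  have hGd : Differentiable ℂ G := by
    intro s
    refine (hFd s).add ?_
    refine DifferentiableAt.fun_sum fun j _ => ?_
    exact ((iter_diff hFd (2 * j + 1)) s).const_mul _
  have hbZ : Z b ≠ 0 := by
    intro h0
    have q1 := hZ.one b (by simp; linarith)
    rw [h0, ofReal_re] at q1
    simp only [zero_sub, norm_neg, norm_one] at q1
    linarith
  have hnp : ∀ w : ℂ, 0 < w.re → ∀ n : ℕ, w ≠ -(n : ℂ) := by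
    intro w hw n hn
    rw [hn] at hw
    simp only [neg_re, natCast_re] at hw
    have : (0 : ℝ) ≤ n := Nat.cast_nonneg n
    linarith
  have hFne : F b ≠ 0 := by
    have hbr : 0 < (b : ℂ).re := by
      rw [ofReal_re]
      linarith
    show (starRingEnd ℂ) e * Λ b ≠ 0
    rw [hg b (hnp b hbr)]
    exact mul_ne_zero he0 (mul_ne_zero (mul_ne_zero (hA0' _)
      (pow_ne_zero _ (h5.1 b hbr).2.1)) hbZ)
  have hFreal : ∀ t : ℝ, (F (1 / 2 + t * I)).im = 0 := fun t => real_line he hε hfe t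
  obtain ⟨n1, n2⟩ := h3 F G b t₁ t₂ (by linarith) ht12 hFd hGd ⟨b, hFne⟩
    (fun t => ⟨hFreal t, by
      show (F (1 / 2 + t * I) + ∑ j ∈ Finset.range N,
        ((m j / L ^ (2 * j + 1) : ℝ) : ℂ) * iteratedDeriv (2 * j + 1) F (1 / 2 + t * I)).re = _
      rw [add_re, re_sum, Finset.sum_eq_zero, add_zero]
      intro j _
      rw [re_ofReal_mul, line_re hFd hFreal, mul_zero]⟩)
    (fun x hx => ⟨hHne _ (hmem x t₁ hx ht1I) (hVh t₁ ht1I ht₁N x hx),
      hHne _ (hmem x t₂ hx ht2I) (hVh t₂ ht2I ht₂N x hx)⟩)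
    (fun t ht => hHne _ (hmem b t ⟨by linarith, le_rfl⟩
      ⟨ht1I.1.trans ht.1, ht.2.trans ht2I.2⟩) (hVr t ht))
  have hbb : (1 / 2 : ℝ) ≤ b := by linarith
  have hmem' : ∀ x t : ℝ, x ∈ Icc (1 / 2) b → t ∈ Icc t₁ t₂ → ((x : ℂ) + t * I) ∈ UU b T :=
    fun x t hx ht => hmem x t hx ⟨ht1I.1.trans ht.1, ht.2.trans ht2I.2⟩
  have hside : ∀ s : ℂ, (1 / 2 ≤ s.re ∧ s.re ≤ b ∧ (s.im = t₁ ∨ s.im = t₂)) ∨
      (s.re = b ∧ t₁ ≤ s.im ∧ s.im ≤ t₂) → s ∈ UU b T ∧ V s ≠ 0 := by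
    intro s hs
    have es : s = (s.re : ℂ) + s.im * I := (re_add_im s).symm
    rcases hs with ⟨q1, q2, q3 | q3⟩ | ⟨q1, q2, q3⟩
    · rw [es, q3]
      exact ⟨hmem _ _ ⟨q1, q2⟩ ht1I, hVh t₁ ht1I ht₁N _ ⟨q1, q2⟩⟩
    · rw [es, q3]
      exact ⟨hmem _ _ ⟨q1, q2⟩ ht2I, hVh t₂ ht2I ht₂N _ ⟨q1, q2⟩⟩
    · rw [es, q1]
      exact ⟨hmem' _ _ ⟨hbb, le_rfl⟩ ⟨q2, q3⟩, hVr _ ⟨q2, q3⟩⟩
  -- the right part
  have hrpG : rp G (1 / 2) b t₁ t₂ = (t₂ - t₁) * l + (rp (fun s => Gamma s ^ n) (1 / 2) b t₁ t₂ +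
      (0 + rp V (1 / 2) b t₁ t₂)) := by
    rw [rp_congr (isOpen_UU b T) hGH hbb ht12.le hmem', hH]
    rw [h1.2.2.2 (fun s => (A : ℂ) ^ s * (Gamma s ^ n * V s)) _ _ _ _ _ hcc]
    rw [h1.1 (fun s => (A : ℂ) ^ s) (fun s => Gamma s ^ n * V s) _ _ _ _ hbb ht12.le ?_]
    · rw [h1.1 (fun s => Gamma s ^ n) V _ _ _ _ hbb ht12.le ?_]
      · rw [h1.2.2.1 A _ _ _ _ hApos, zero_add]
      · intro s hs
        obtain ⟨q1, q2⟩ := hside s hs
        exact ⟨(haΓ s q1).pow n, haV s q1, pow_ne_zero _ (hΓ0 s q1), q2⟩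
    · intro s hs
      obtain ⟨q1, q2⟩ := hside s hs
      exact ⟨haA s q1, ((haΓ s q1).pow n).mul (haV s q1), hA0' s,
        mul_ne_zero (pow_ne_zero _ (hΓ0 s q1)) q2⟩
  have hbT : n * CG * (2 * (b - 1 / 2) + (t₂ - t₁)) ≤ l := by
    have : n * CG * (2 * (b - 1 / 2) + (t₂ - t₁)) ≤ n * CG * (2 * b + T) := by
      refine mul_le_mul_of_nonneg_left ?_ hprod'
      linarith [ht1I.1, ht2I.2]
    linarith
  have hUG : ∀ s ∈ UU b T, ‖ld Gamma s‖ ≤ CG ∧ ‖deriv (ld Gamma) s‖ ≤ CG :=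
    fun s hs => hGG s hs.1.le hs.2.1.le hs.2.2.le
  have hrpΓ : |rp (fun s => Gamma s ^ n) (1 / 2) b t₁ t₂| ≤ l := by
    refine (h1.2.1 (fun s => Gamma s ^ n) _ _ _ _ (n * CG) hbb ht12.le (fun s hs => ?_)).trans hbT
    have q := (hside s hs).1
    rw [ld_pow' n (h5.1 s (hUre s q)).1 (h5.1 s (hUre s q)).2.1, norm_mul, norm_natCast]
    exact mul_le_mul_of_nonneg_left (hUG s q).1 (Nat.cast_nonneg n)
  have hclose : ∀ t : ℝ, t ∈ Icc 0 T → ‖V (b + t * I) - 1‖ ≤ 1 / 4 ∧ ‖deriv V (b + t * I)‖ ≤ 1 := by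
    intro t ht
    exact (hmemV _ (hmem b t ⟨hbb, le_rfl⟩ ht)).2.2 (by simp)
  have hre : ∀ t : ℝ, t ∈ Icc 0 T → 1 / 2 ≤ (V (b + t * I)).re := by
    intro t ht
    have q1 := (abs_re_le_norm (V (b + t * I) - 1)).trans (hclose t ht).1
    rw [sub_re, one_re, abs_le] at q1
    linarith [q1.1]
  have hsideC : Real.pi * (Real.log (2 * A ^ C0) / κ + 1) ≤ Real.pi * (D * l) :=
    num_side hApos hl1 hl hκ0
  have hs1 := side h4 hb ht₁.1 (by linarith [ht₁.2]) (fun s hs => (hmemV s hs).1)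
    (fun s hs => (hmemV s hs).2.1) (hre t₁ ht1I) (hVh t₁ ht1I ht₁N) hsideC
  have hs2 := side h4 hb (by linarith [ht₂.1]) ht₂.2 (fun s hs => (hmemV s hs).1)
    (fun s hs => (hmemV s hs).2.1) (hre t₂ ht2I) (hVh t₂ ht2I ht₂N) hsideC
  have hT2 : 2 * T ≤ l := by linarith
  have hrpV : |rp V (1 / 2) b t₁ t₂| ≤ l + 2 * (Real.pi * (D * l)) :=
    three_sides hT2 hs1 hs2 (right_side ht1I.1 ht12 ht2I.2 hclose)
  -- the zeros
  set S1 : Set ℂ := {ρ : ℂ | 1 / 2 ≤ ρ.re ∧ ρ.re < b ∧ t₁ < ρ.im ∧ ρ.im < t₂} with hS1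
  set S2 : Set ℂ := {ρ : ℂ | 1 / 2 ≤ ρ.re ∧ ρ.re < b ∧ ρ ∈ St T} with hS2
  have hS12 : S1 ⊆ S2 := by
    rintro ρ ⟨q1, q2, q3, q4⟩
    exact ⟨q1, q2, by linarith [ht₁.1], by linarith [ht₂.2]⟩
  have hS2R : S2 ⊆ (Icc (1 / 2) b ×ℂ Icc 0 T) := by
    rintro ρ ⟨q1, q2, q3, q4⟩
    rw [mem_reProdIm]
    exact ⟨⟨q1, q2.le⟩, ⟨q3.le, q4.le⟩⟩
  have hS2U : S2 ⊆ UU b T := hS2R.trans hRU
  have hS1U : S1 ⊆ UU b T := hS12.trans hS2U
  have hord : ∀ s ∈ UU b T, analyticOrderAt V s ≠ ⊤ := fun s hs =>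
    Pool.Agent.H18.PZ.order_ne_top (convex_UU b T).isPreconnected haV hs0 hs0' hs
  have hzc1 : zc G S1 = zc V S1 := by
    rw [zc_congr (isOpen_UU b T) hGH hS1U]
    have e1 : H = fun s => V s * (((starRingEnd ℂ) e * P) * ((A : ℂ) ^ s * Gamma s ^ n)) := by
      funext s
      rw [hH]
      ring
    rw [e1]
    have hne : ∀ s ∈ S1, ((starRingEnd ℂ) e * P) * ((A : ℂ) ^ s * Gamma s ^ n) ≠ 0 := by
      intro s hs
      have q := hS1U hs
      exact mul_ne_zero hcc (mul_ne_zero (hA0' s) (pow_ne_zero _ (hΓ0 s q)))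
    refine (h2.1 V (fun s => ((starRingEnd ℂ) e * P) * ((A : ℂ) ^ s * Gamma s ^ n)) S1 S1
      subset_rfl (fun s hs => ?_) ?_).2.2 hne
    · have q := hS1U hs
      have qa : AnalyticAt ℂ (fun s => ((starRingEnd ℂ) e * P) *
          ((A : ℂ) ^ s * Gamma s ^ n)) s :=
        analyticAt_const.mul ((haA s q).mul ((haΓ s q).pow n))
      refine ⟨haV s q, qa, hord s q, ?_⟩
      rw [qa.analyticOrderAt_eq_zero.2 (hne s hs)]
      simp
    · refine hVfin.subset ?_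
      rintro s ⟨q1, q2⟩
      exact ⟨hS2R (hS12 q1), (mul_eq_zero.1 q2).resolve_right (hne s q1)⟩
  have hzc2 : zc V S1 ≤ zc V S2 := by
    have q1 := (h2.1 V (fun _ => 1) S1 S2 hS12 (fun s hs => ?_) ?_).2.1
    · simpa using q1
    · have q := hS2U hs
      refine ⟨haV s q, analyticAt_const, hord s q, ?_⟩
      have q2 : AnalyticAt ℂ (fun _ : ℂ => (1 : ℂ)) s := analyticAt_const
      rw [q2.analyticOrderAt_eq_zero.2 one_ne_zero]
      simp
    · refine hVfin.subset ?_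
      rintro s ⟨q1, q2⟩
      refine ⟨hS2R q1, ?_⟩
      simpa using q2
  -- the zeros on the line
  have hZfin : {z | z ∈ (Icc (1 / 2) b ×ℂ Icc 0 T) ∧ Z z = 0}.Finite :=
    Pool.Agent.H18.PZ.zeros_finite isPreconnected_univ (fun s _ => hZ.diff.analyticAt s)
      (mem_univ _) hbZ hcpt (subset_univ _)
  have hSZ : (CZ Z V 0 T).Finite := by
    refine hZfin.subset ?_
    rintro s ⟨q1, q2, q3, q4, q5⟩
    refine ⟨?_, q1⟩
    rw [mem_reProdIm, q3]
    exact ⟨⟨le_rfl, hbb⟩, ⟨q4.le, q5.le⟩⟩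
  have hsubZ : CZ F G t₁ t₂ ⊆ CZ Z V 0 T := by
    rintro s ⟨q1, q2, q3, q4, q5⟩
    have hs : 0 < s.re := by rw [q3]; norm_num
    have hsU : s ∈ UU b T := by
      have := hmem' s.re s.im ⟨q3.ge, q3.le.trans hbb⟩ ⟨q4.le, q5.le⟩
      rwa [re_add_im] at this
    have hc0 : (starRingEnd ℂ) e * ((A : ℂ) ^ s * Gamma s ^ n) ≠ 0 :=
      mul_ne_zero he0 (mul_ne_zero (hA0' s) (pow_ne_zero _ (Gamma_ne_zero (hnp s hs))))
    have hZ0 : Z s = 0 := by
      have q6 : F s = ((starRingEnd ℂ) e * ((A : ℂ) ^ s * Gamma s ^ n)) * Z s := by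
        show (starRingEnd ℂ) e * Λ s = _
        rw [hg s (hnp s hs)]
        ring
      rw [q6] at q1
      exact (mul_eq_zero.1 q1).resolve_left hc0
    refine ⟨hZ0, fun h0 => q2 ?_, q3, by linarith [ht₁.1], by linarith [ht₂.2]⟩
    rw [hGH s hsU, hH]
    simp only
    rw [h0]
    ring
  refine ⟨hSZ, ?_⟩
  have hcard : ((CZ F G t₁ t₂).ncard : ℝ) ≤ ((CZ Z V 0 T).ncard : ℝ) := by
    exact_mod_cast ncard_le_ncard hsubZ hSZ
  rw [hzc1] at n2
  rw [hrpG] at n2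
  have ht1' : t₁ ≤ 1 / 2 := by linarith [ht₁.2]
  have ht2' : T - 1 / 2 ≤ t₂ := by linarith [ht₂.1]
  have hzero : |(0 : ℝ)| ≤ l := by
    rw [abs_zero]
    linarith
  have hfin := num_fin (T := T) (D := D) (by linarith : (0 : ℝ) ≤ l) ht1' ht2' hrpΓ hzero hrpV hl1
  linarith

end Pool.Agent.H68.CRG
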